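import Pool.Agent.Helper98K9.CP.St

set_option autoImplicit false

/-! # Basic facts on `Cn`, shifts and single edges -/

namespace Pool.Agent.Helper80K9.CP

open MeasureTheory ProbabilityTheory
open scoped ENNReal NNReal
open Pool.Agent.Helper98K9.CP

lemma og_mono {b : ℕ} {ω ω' : Cf} {W W' : Set Vx} (hω : ∀ e, ω e = true → ω' e = true)
    (hW : W ⊆ W') : og b ω W ≤ og b ω' W' := by
  intro x y h
  obtain ⟨h0, h1, h2, c, h3⟩ := h
  refine ⟨h0, hW h1, hW h2, c, ?_⟩
  rcases h3 with ⟨h3, h4⟩ | ⟨h3, h4⟩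
  · exact Or.inl ⟨h3, hω _ h4⟩
  · exact Or.inr ⟨h3, hω _ h4⟩

lemma Cn_mono {b : ℕ} {ω ω' : Cf} {W W' : Set Vx} {x y : Vx}
    (hω : ∀ e, ω e = true → ω' e = true) (hW : W ⊆ W') (h : Cn b ω W x y) : Cn b ω' W' x y :=
  SimpleGraph.Reachable.mono (og_mono hω hW) h

lemma Cn_mono_set {b : ℕ} {ω : Cf} {W W' : Set Vx} {x y : Vx} (hW : W ⊆ W')
    (h : Cn b ω W x y) : Cn b ω W' x y := Cn_mono (fun _ h => h) hW h

lemma Cn_refl (b : ℕ) (ω : Cf) (W : Set Vx) (x : Vx) : Cn b ω W x x :=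
  SimpleGraph.Reachable.refl x

lemma Cn_symm {b : ℕ} {ω : Cf} {W : Set Vx} {x y : Vx} (h : Cn b ω W x y) : Cn b ω W y x :=
  SimpleGraph.Reachable.symm h

lemma Cn_trans {b : ℕ} {ω : Cf} {W : Set Vx} {x y z : Vx} (h : Cn b ω W x y)
    (h' : Cn b ω W y z) : Cn b ω W x z := SimpleGraph.Reachable.trans h h'

lemma Cn_edge {b : ℕ} {ω : Cf} {W : Set Vx} {x : Vx} {c : Bool} (hx : x ∈ W)
    (hy : hd b (x, c) ∈ W) (h : ω (x, c) = true) : Cn b ω W x (hd b (x, c)) := by
  by_cases h0 : x = hd b (x, c)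
  · rw [← h0]; exact Cn_refl _ _ _ _
  · exact SimpleGraph.Adj.reachable ⟨h0, hx, hy, c, Or.inl ⟨rfl, h⟩⟩

lemma inc_Cn (b : ℕ) (W : Set Vx) (x y : Vx) : Inc {ω : Cf | Cn b ω W x y} :=
  fun _ _ h hc => Cn_mono h subset_rfl hc

/-- shift of the levels -/
def shv (s : ℤ) (x : Vx) : Vx := ((x.1.1 + s, x.1.2), x.2)

/-- shift of the levels, on the edges -/
def she (s : ℤ) (e : Ed) : Ed := (shv s e.1, e.2)

lemma shv_injective (s : ℤ) : Function.Injective (shv s) := by
  rintro ⟨⟨a, m⟩, h⟩ ⟨⟨a', m'⟩, h'⟩ hh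
  simp only [shv, Prod.mk.injEq] at hh
  obtain ⟨⟨h1, h2⟩, h3⟩ := hh
  have : a = a' := by omega
  rw [this, h2, h3]

lemma she_injective (s : ℤ) : Function.Injective (she s) := by
  rintro ⟨x, c⟩ ⟨x', c'⟩ hh
  simp only [she, Prod.mk.injEq] at hh
  rw [shv_injective s hh.1, hh.2]

lemma hd_she (b : ℕ) (s : ℤ) (e : Ed) : hd b (she s e) = shv s (hd b e) := by
  obtain ⟨⟨⟨a, m⟩, h⟩, c⟩ := e
  cases c
  · simp only [hd, she, shv, par, Bool.false_eq_true, if_false, Prod.mk.injEq, and_true]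
    ring
  · simp only [hd, she, shv, if_true]

lemma Cn_shift {b : ℕ} {ω : Cf} {s : ℤ} {W W' : Set Vx} {x y : Vx}
    (hW : ∀ z ∈ W, shv s z ∈ W') (h : Cn b (fun e => ω (she s e)) W x y) :
    Cn b ω W' (shv s x) (shv s y) := by
  let f : og b (fun e => ω (she s e)) W →g og b ω W' :=
    { toFun := shv s
      map_rel' := by
        rintro u v ⟨h0, h1, h2, c, h3⟩
        refine ⟨fun h => h0 (shv_injective s h), hW _ h1, hW _ h2, c, ?_⟩
        rcases h3 with ⟨h3, h4⟩ | ⟨h3, h4⟩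
        · left
          refine ⟨?_, h4⟩
          rw [← h3, ← hd_she]; rfl
        · right
          refine ⟨?_, h4⟩
          rw [← h3, ← hd_she]; rfl }
  exact SimpleGraph.Reachable.map f h

lemma prob_open (ι : Type) (p : ℝ≥0) (hp : p ≤ 1) (e : ι) :
    (PP ι p hp).real {ω | ω e = true} = p := by
  have h1 : MeasurePreserving (fun ω : ι → Bool => ω e) (PP ι p hp)
      (PMF.bernoulli p hp).toMeasure := by
    unfold PP
    exact measurePreserving_eval_infinitePi _ e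
  have h2 := h1.measureReal_preimage (s := ({true} : Set Bool))
    (MeasurableSet.singleton _).nullMeasurableSet
  have h3 : (fun ω : ι → Bool => ω e) ⁻¹' ({true} : Set Bool) = {ω : ι → Bool | ω e = true} := by
    ext ω; simp
  rw [h3] at h2
  rw [h2, measureReal_def, PMF.toMeasure_apply_singleton _ _ (MeasurableSet.singleton _)]
  simp [PMF.bernoulli_apply]

lemma measurableSet_open {ι : Type} (e : ι) : MeasurableSet {ω : ι → Bool | ω e = true} :=
  (measurable_pi_apply e : Measurable fun ω : ι → Bool => ω e) (MeasurableSet.singleton true)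

lemma inc_open {ι : Type} (e : ι) : Inc {ω : ι → Bool | ω e = true} := fun _ _ h hc => h _ hc

lemma real_mono {ι : Type} {p : ℝ≥0} {hp : p ≤ 1} {A B : Set (ι → Bool)} (h : A ⊆ B) :
    (PP ι p hp).real A ≤ (PP ι p hp).real B := measureReal_mono h (measure_ne_top _ _)

lemma par_zero (b : ℕ) (k : ℤ) : par b (k, 0) = (k + 1, 0) := by simp [par]

lemma par_iter_zero (b : ℕ) (k : ℤ) (j : ℕ) : (par b)^[j] (k, 0) = (k + j, 0) := by
  induction j with
  | zero => simp
  | succ j ih =>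
    rw [Function.iterate_succ_apply', ih, par_zero]
    push_cast
    rw [add_assoc]

end Pool.Agent.Helper80K9.CP
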