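import Pool.Agent.Helper80K9.CP.Basic

set_option autoImplicit false

/-! # [CHAIN] -/

namespace Pool.Agent.Helper80K9.CP

open MeasureTheory ProbabilityTheory
open scoped ENNReal NNReal
open Pool.Agent.Helper98K9.CP

/-- combining two connections by Harris' inequality -/
lemma combine (hHAR : S_HAR) (hM : S_MEAS) {b : ℕ} {p : ℝ≥0} {hp : p ≤ 1} {W W' W'' : Set Vx}
    {x y z : Vx} {u v : ℝ} (hv : 0 ≤ v)
    (h1 : u ≤ (PP Ed p hp).real {ω | Cn b ω W x y}) (h2 : v ≤ (PP Ed p hp).real {ω | Cn b ω W' y z})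
    (hW : W ⊆ W'') (hW' : W' ⊆ W'') :
    u * v ≤ (PP Ed p hp).real {ω | Cn b ω W'' x z} := by
  have h3 := hHAR Ed p hp _ _ (hM b W x y).1 (hM b W' y z).1 (inc_Cn b W x y) (inc_Cn b W' y z)
  have h4 : (PP Ed p hp).real ({ω | Cn b ω W x y} ∩ {ω | Cn b ω W' y z}) ≤
      (PP Ed p hp).real {ω | Cn b ω W'' x z} := by
    apply real_mono
    rintro ω ⟨ha, hb⟩
    exact Cn_trans (Cn_mono_set hW ha) (Cn_mono_set hW' hb)
  calc u * v ≤ (PP Ed p hp).real {ω | Cn b ω W x y} * (PP Ed p hp).real {ω | Cn b ω W' y z} :=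
        mul_le_mul h1 h2 hv measureReal_nonneg
    _ ≤ _ := h3.trans h4

/-- the vertex of index `0` at level `k`, height `0` -/
def v0 (k : ℤ) : Vx := ((k, 0), 0)

lemma v0_mem_Blk {b K R : ℕ} {k n : ℤ} (h : k ≤ n) (h' : n ≤ k + K) :
    v0 k ∈ Blk b K R (n, 0) 0 := by
  refine ⟨⟨(n - k).toNat, by omega, ?_⟩, by simp [v0], by simp [v0]⟩
  show (par b)^[(n - k).toNat] (k, 0) = (n, 0)
  rw [par_iter_zero]
  simp only [Prod.mk.injEq, and_true]
  omega

/-- vertical segment in the tree -/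
lemma segment (hHAR : S_HAR) (hM : S_MEAS) {b : ℕ} {p : ℝ≥0} {hp : p ≤ 1} {K R : ℕ} {n : ℤ} (k : ℤ)
    (l : ℕ) (h : k + l ≤ n) (h' : n ≤ k + K) :
    (p : ℝ) ^ l ≤ (PP Ed p hp).real {ω | Cn b ω (Blk b K R (n, 0) 0) (v0 k) (v0 (k + l))} := by
  induction l with
  | zero =>
    have : {ω : Cf | Cn b ω (Blk b K R (n, 0) 0) (v0 k) (v0 (k + (0 : ℕ)))} = Set.univ := by
      ext ω
      simp only [Nat.cast_zero, add_zero, Set.mem_ofPred_eq, Set.mem_univ, iff_true]
      exact Cn_refl _ _ _ _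
    rw [this]
    simp
  | succ l ih =>
    have h1 := ih (by push_cast at h; omega)
    rw [pow_succ]
    refine combine hHAR hM p.2 h1 (W' := Blk b K R (n, 0) 0) ?_ subset_rfl subset_rfl
    calc (p : ℝ) = (PP Ed p hp).real {ω | ω (v0 (k + l), false) = true} := (prob_open Ed p hp _).symm
      _ ≤ _ := by
        apply real_mono
        intro ω hω
        have h2 : hd b (v0 (k + l), false) = v0 (k + (l + 1 : ℕ)) := by
          simp [hd, v0, par]
          ring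
        have h3 := Cn_edge (b := b) (ω := ω) (W := Blk b K R (n, 0) 0) (x := v0 (k + l))
          (c := false) (v0_mem_Blk (by push_cast at h; omega) (by push_cast at h ⊢; omega))
          (by rw [h2]; exact v0_mem_Blk h (by push_cast at h ⊢; omega)) hω
        rw [h2] at h3
        exact h3

theorem chain (hHAR : S_HAR) (hR : S_REIDX) (hM : S_MEAS) : S_CHAIN := by
  intro b hb p hp hp0 M R a n hn haM hτ
  set τ : ℝ := (PP Ed p hp).real {ω | Cn b ω (Blk b M R ((M : ℤ), 0) 0)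
      (((a : ℤ), 0), 0) ((((a + n : ℕ) : ℤ), 0), 0)} with hτdef
  have hτ0 : 0 ≤ τ := measureReal_nonneg
  have hpr : (0 : ℝ) < p := by exact_mod_cast hp0
  -- translated connections
  have hshift : ∀ m : ℕ, τ ≤ (PP Ed p hp).real {ω | Cn b ω (Blk b M R ((M + m * n : ℕ), 0) 0)
      (v0 ((a + m * n : ℕ) : ℤ)) (v0 ((a + (m + 1) * n : ℕ) : ℤ))} := by
    intro m
    have h1 := hR Ed Ed p hp (she (m * n : ℕ)) (she_injective _)
    have h2 := h1.measureReal_preimage (s := {ω | Cn b ω (Blk b M R ((M : ℤ), 0) 0)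
      (((a : ℤ), 0), 0) ((((a + n : ℕ) : ℤ), 0), 0)}) (hM b _ _ _).1.nullMeasurableSet
    rw [hτdef, ← h2]
    apply real_mono
    intro ω hω
    have h3 := Cn_shift (b := b) (ω := ω) (s := (m * n : ℕ))
      (W := Blk b M R ((M : ℤ), 0) 0) (W' := Blk b M R ((M + m * n : ℕ), 0) 0) ?_ hω
    · have e1 : shv (m * n : ℕ) (((a : ℤ), 0), 0) = v0 ((a + m * n : ℕ) : ℤ) := by
        simp [shv, v0]
      have e2 : shv (m * n : ℕ) ((((a + n : ℕ) : ℤ), 0), 0) = v0 ((a + (m + 1) * n : ℕ) : ℤ) := by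
        simp [shv, v0]; ring
      rw [e1, e2] at h3
      exact h3
    · rintro ⟨⟨k, i⟩, h⟩ ⟨⟨j, hj, hz⟩, h4, h5⟩
      refine ⟨⟨j, hj, ?_⟩, h4, h5⟩
      have key : ∀ (j : ℕ) (y : Vt) (s : ℤ), (par b)^[j] (y.1 + s, y.2)
          = (((par b)^[j] y).1 + s, ((par b)^[j] y).2) := by
        intro j
        induction j with
        | zero => intro y s; rfl
        | succ j ih =>
          intro y s
          rw [Function.iterate_succ_apply', Function.iterate_succ_apply', ih]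
          simp only [par, Prod.mk.injEq, and_true]
          ring
      show (par b)^[j] (k + (m * n : ℕ), i) = _
      have h6 := key j (k, i) (m * n : ℕ)
      simp only at h6 hz
      rw [h6, hz]
      push_cast
      rfl
  -- blocks
  have hsub : ∀ {K K' : ℕ} {k k' : ℤ}, k ≤ k' → k' ≤ k + (K' - K : ℤ) → (K : ℤ) ≤ K' →
      Blk b K R (k, 0) 0 ⊆ Blk b K' R (k', 0) 0 := by
    intro K K' k k' hk hk' hKK
    rintro ⟨y, h⟩ ⟨⟨j, hj, hz⟩, h4, h5⟩
    refine ⟨⟨(k' - k).toNat + j, by omega, ?_⟩, h4, h5⟩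
    rw [Function.iterate_add_apply]
    simp only at hz ⊢
    rw [hz, par_iter_zero]
    simp only [Prod.mk.injEq, and_true]
    omega
  -- from the bottom
  have hind : ∀ m : ℕ, (p : ℝ) ^ a * τ ^ m ≤ (PP Ed p hp).real
      {ω | Cn b ω (Blk b (M + m * n) R ((M + m * n : ℕ), 0) 0) (v0 0)
        (v0 ((a + m * n : ℕ) : ℤ))} := by
    intro m
    induction m with
    | zero =>
      have h1 := segment hHAR hM (b := b) (p := p) (hp := hp) (K := M) (R := R) (n := (M : ℤ)) 0 a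
        (by omega) (by omega)
      simpa using h1
    | succ m ih =>
      have e1 : (p : ℝ) ^ a * τ ^ (m + 1) = (p : ℝ) ^ a * τ ^ m * τ := by ring
      rw [e1]
      refine combine hHAR hM hτ0 ih (hshift m) ?_ ?_
      · refine hsub ?_ ?_ ?_
        · push_cast; nlinarith
        · push_cast; linarith
        · push_cast; nlinarith
      · refine hsub ?_ ?_ ?_
        · push_cast; nlinarith
        · push_cast
          nlinarith
        · push_cast; nlinarith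
  have hpi : ∀ m : ℕ, (p : ℝ) ^ M * τ ^ m ≤ piKR b (M + m * n) R p hp := by
    intro m
    have h1 := segment hHAR hM (b := b) (p := p) (hp := hp) (K := M + m * n) (R := R)
      (n := ((M + m * n : ℕ) : ℤ)) ((a + m * n : ℕ) : ℤ) (M - a)
      (by generalize m * n = mn; omega) (by generalize m * n = mn; omega)
    have h2 := combine hHAR hM (pow_nonneg p.2 _) (hind m) h1 subset_rfl subset_rfl
    have e1 : (p : ℝ) ^ M * τ ^ m = (p : ℝ) ^ a * τ ^ m * (p : ℝ) ^ (M - a) := by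
      have : M = a + (M - a) := by omega
      conv_lhs => rw [this, pow_add]
      ring
    rw [e1]
    refine h2.trans (le_of_eq ?_)
    unfold piKR
    congr 1
    ext ω
    have e2 : ((a + m * n : ℕ) : ℤ) + ((M - a : ℕ) : ℤ) = ((M + m * n : ℕ) : ℤ) := by
      generalize m * n = mn
      omega
    rw [e2]
    exact ⟨fun h => Cn_symm h, fun h => Cn_symm h⟩
  -- conclusion
  have hlim := tendsto_pow_atTop_atTop_of_one_lt hτ
  have hpos : (0 : ℝ) < (b : ℝ) ^ (M + 1) * ((p : ℝ) * (p : ℝ) ^ M) ^ 2 := by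
    have : (0 : ℝ) < b := by exact_mod_cast (by omega : 0 < b)
    positivity
  obtain ⟨m, hm⟩ := (hlim.eventually_gt_atTop
    (((b : ℝ) ^ (M + 1) * ((p : ℝ) * (p : ℝ) ^ M) ^ 2)⁻¹)).exists
  refine ⟨M + m * n, ?_⟩
  unfold mu
  have h1 : (p : ℝ) * ((p : ℝ) ^ M * τ ^ m) ≤ (p : ℝ) * piKR b (M + m * n) R p hp :=
    mul_le_mul_of_nonneg_left (hpi m) p.2
  have h2 : (0 : ℝ) ≤ (p : ℝ) * ((p : ℝ) ^ M * τ ^ m) := by positivity
  calc (1 : ℝ) = ((b : ℝ) ^ (M + 1) * ((p : ℝ) * (p : ℝ) ^ M) ^ 2) *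
        ((b : ℝ) ^ (M + 1) * ((p : ℝ) * (p : ℝ) ^ M) ^ 2)⁻¹ := (mul_inv_cancel₀ hpos.ne').symm
    _ < ((b : ℝ) ^ (M + 1) * ((p : ℝ) * (p : ℝ) ^ M) ^ 2) * ((b : ℝ) ^ n * τ ^ 2) ^ m :=
        mul_lt_mul_of_pos_left hm hpos
    _ = (b : ℝ) ^ (M + m * n + 1) * ((p : ℝ) * ((p : ℝ) ^ M * τ ^ m)) ^ 2 := by ring
    _ ≤ _ := by gcongr

end Pool.Agent.Helper80K9.CP
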