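import Pool.Agent.Helper98K9.CP.Basic
import Pool.Agent.Helper98K9.CP.St2
import Pool.Agent.Helper80K9.CP.Chain

set_option autoImplicit false

/-! # [EX1] an exit gives a connection to a good point with probability bounded below -/

namespace Pool.Agent.Helper80K9.CP

open MeasureTheory ProbabilityTheory
open scoped ENNReal NNReal
open Pool.Agent.Helper98K9.CP

section dep

variable {ι : Type} {D D' : Set ι} {A B : Set (ι → Bool)}

lemma dep_mono (h : D ⊆ D') (hA : Dep D A) : Dep D' A :=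
  fun ω ω' h1 h2 => hA ω ω' (fun e he => h1 e (h he)) h2

lemma dep_compl (hA : Dep D A) : Dep D Aᶜ :=
  fun ω ω' h1 h2 h3 => h2 (hA ω' ω (fun e he => (h1 e he).symm) h3)

lemma dep_inter (hA : Dep D A) (hB : Dep D B) : Dep D (A ∩ B) :=
  fun ω ω' h1 h2 => ⟨hA ω ω' h1 h2.1, hB ω ω' h1 h2.2⟩

lemma dep_diff (hA : Dep D A) (hB : Dep D B) : Dep D (A \ B) :=
  dep_inter hA (dep_compl hB)

end dep

section geometry

variable {b r : ℕ}

/-- the boundary of `Br` -/
lemma boundary {y w : Vt} (hy : y ∈ Br b r) (hw : w ∉ Br b r) (h : par b y = w ∨ par b w = y) :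
    (w = ((r : ℤ) + 1, 0)) ∨ (w.1 = -(r : ℤ) - 1 ∧ par b w = y) := by
  obtain ⟨j, hj, hjy⟩ := hy
  rcases h with h | h
  · left
    cases j with
    | zero =>
      rw [Function.iterate_zero, id] at hjy
      rw [← h, hjy]
      simp [par]
    | succ j =>
      exfalso
      apply hw
      rw [Function.iterate_succ_apply] at hjy
      exact ⟨j, by omega, by rw [← h]; exact hjy⟩
  · right
    refine ⟨?_, h⟩
    have h1 : j = 2 * r := by
      by_contra hne
      apply hw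
      refine ⟨j + 1, by omega, ?_⟩
      rw [Function.iterate_succ_apply, h, hjy]
    rw [← h, ← Function.iterate_succ_apply, iter_par] at hjy
    have h2 := congrArg Prod.fst hjy
    simp only at h2
    push_cast at h2
    omega

/-- a vertex `z` none of whose descendants is in `Br` -/
def Free (b r : ℕ) (z : Vt) : Prop := ∀ v : Vt, ∀ t : ℕ, (par b)^[t] v = z → v ∉ Br b r

lemma free_low {w : Vt} (hw : w.1 = -(r : ℤ) - 1) : Free b r w := by
  rintro v t hv ⟨j, hj, hjv⟩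
  rw [iter_par] at hv hjv
  have h1 := congrArg Prod.fst hv
  have h2 := congrArg Prod.fst hjv
  simp only at h1 h2
  omega

lemma free_top : Free b r ((r : ℤ), 1) := by
  rintro v t hv ⟨j, hj, hjv⟩
  have hv' := hv
  have hjv' := hjv
  rw [iter_par] at hv' hjv'
  have h1 := congrArg Prod.fst hv'
  have h2 := congrArg Prod.fst hjv'
  simp only at h1 h2
  have h3 : t = j := by omega
  rw [h3, hjv] at hv
  have := congrArg Prod.snd hv
  simp at this

end geometry

/-- vertical segment -/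
lemma vseg (hHAR : S_HAR) (hM : S_MEAS) {b : ℕ} {p : ℝ≥0} {hp : p ≤ 1} {W : Set Vx} (z : Vt) (h : ℤ)
    (n : ℕ) (hW : ∀ t : ℤ, h ≤ t → t ≤ h + n → (z, t) ∈ W) :
    (p : ℝ) ^ n ≤ (PP Ed p hp).real {ω | Cn b ω W (z, h) (z, h + n)} := by
  induction n with
  | zero =>
    have : {ω : Cf | Cn b ω W (z, h) (z, h + (0 : ℕ))} = Set.univ := by
      ext ω
      simp only [Nat.cast_zero, add_zero, Set.mem_ofPred_eq, Set.mem_univ, iff_true]
      exact Cn_refl _ _ _ _
    rw [this]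
    simp
  | succ n ih =>
    have h1 := ih (fun t ht ht' => hW t ht (by push_cast; omega))
    rw [pow_succ]
    refine combine hHAR hM p.2 h1 (W' := W) ?_ subset_rfl subset_rfl
    calc (p : ℝ) = (PP Ed p hp).real {ω | ω ((z, h + n), true) = true} := (prob_open Ed p hp _).symm
      _ ≤ _ := by
        apply real_mono
        intro ω hω
        have h2 : hd b ((z, h + n), true) = (z, h + (n + 1 : ℕ)) := by
          simp [hd]
          ring
        have h3 := Cn_edge (b := b) (ω := ω) (W := W) (x := (z, h + n))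
          (c := true) (hW _ (by omega) (by push_cast; omega))
          (by rw [h2]; exact hW _ (by omega) (by push_cast; omega)) hω
        rw [h2] at h3
        exact h3

/-- the good event for `(z, h)`, shifted -/
lemma good_shift (hR : S_REIDX) {b K R : ℕ} {p : ℝ≥0} {hp : p ≤ 1} {a c m : ℝ}
    (hNice : S_NICE) (hNG : S_NGOOD) (hb : 2 ≤ b) (z : Vt) (h : ℤ)
    (ha : a ≤ (PP Ed p hp).real (Good p hp a (RelI b K R c m z))) :
    MeasurableSet {ω : Cf | sh h ω ∈ Good p hp a (RelI b K R c m z)} ∧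
    Inc {ω : Cf | sh h ω ∈ Good p hp a (RelI b K R c m z)} ∧
    Dep {e : Ed | ∃ j : ℕ, (par b)^[j] e.1.1 = z ∧ (e.2 = false → 1 ≤ j)}
      {ω : Cf | sh h ω ∈ Good p hp a (RelI b K R c m z)} ∧
    a ≤ (PP Ed p hp).real {ω : Cf | sh h ω ∈ Good p hp a (RelI b K R c m z)} := by
  obtain ⟨h1, h2, h3⟩ := hNG p hp a _ _ ((hNice b hb K R c m z).2)
  have hpres : MeasurePreserving (sh h) (PP Ed p hp) (PP Ed p hp) := by
    have := hR Ed Ed p hp (fun e : Ed => ((e.1.1, e.1.2 + h), e.2)) (by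
      rintro ⟨⟨v, t⟩, c⟩ ⟨⟨v', t'⟩, c'⟩ hh
      simp only [Prod.mk.injEq, add_left_inj] at hh
      obtain ⟨⟨h5, h6⟩, h7⟩ := hh
      rw [h5, h6, h7])
    exact this
  refine ⟨hpres.measurable h1, ?_, ?_, ?_⟩
  · intro ω ω' hh hω
    exact h2 _ _ (fun e => hh _) hω
  · intro ω ω' hh hω
    refine h3 _ _ (fun e he => ?_) hω
    obtain ⟨_, j, hj, hj'⟩ := he
    exact hh _ ⟨j, hj, hj'⟩
  · have h5 := hpres.measureReal_preimage (s := Good p hp a (RelI b K R c m z)) h1.nullMeasurableSet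
    have h6 : {ω : Cf | sh h ω ∈ Good p hp a (RelI b K R c m z)}
        = sh h ⁻¹' Good p hp a (RelI b K R c m z) := rfl
    rw [h6, h5]
    exact ha

/-- exit at `w` -/
def ExW (b r : ℕ) (L : Set ℤ) (x : Vx) (w : Vx) : Set Cf :=
  {ω | ∃ y, Cn b ω {u : Vx | u.1 ∈ Br b r ∧ u.2 ∈ L} x y ∧ w.1 ∉ Br b r ∧
    (og b ω (TW L)).Adj y w}

lemma meas_adj (b : ℕ) (W : Set Vx) (y w : Vx) : MeasurableSet {ω : Cf | (og b ω W).Adj y w} := by
  have h1 : {ω : Cf | (og b ω W).Adj y w} = {ω : Cf | y ≠ w ∧ y ∈ W ∧ w ∈ W} ∩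
      ⋃ c : Bool, (({ω : Cf | hd b (y, c) = w} ∩ {ω | ω (y, c) = true}) ∪
        ({ω : Cf | hd b (w, c) = y} ∩ {ω | ω (w, c) = true})) := by
    ext ω
    simp only [Set.mem_ofPred_eq, Set.mem_inter_iff, Set.mem_iUnion, Set.mem_union]
    constructor
    · rintro ⟨h0, h1, h2, c, h3⟩
      exact ⟨⟨h0, h1, h2⟩, c, h3⟩
    · rintro ⟨⟨h0, h1, h2⟩, c, h3⟩
      exact ⟨h0, h1, h2, c, h3⟩
  rw [h1]
  refine MeasurableSet.inter (MeasurableSet.const _) (MeasurableSet.iUnion fun c => ?_)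
  exact ((MeasurableSet.const _).inter (measurableSet_open _)).union
    ((MeasurableSet.const _).inter (measurableSet_open _))

lemma meas_ExW (hM : S_MEAS) (b r : ℕ) (L : Set ℤ) (x w : Vx) : MeasurableSet (ExW b r L x w) := by
  have h1 : ExW b r L x w = ⋃ y, ({ω : Cf | Cn b ω {u : Vx | u.1 ∈ Br b r ∧ u.2 ∈ L} x y} ∩
      ({ω : Cf | w.1 ∉ Br b r} ∩ {ω : Cf | (og b ω (TW L)).Adj y w})) := by
    ext ω
    simp only [ExW, Set.mem_ofPred_eq, Set.mem_iUnion, Set.mem_inter_iff]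
  rw [h1]
  exact MeasurableSet.iUnion fun y => (hM b _ x y).1.inter
    ((MeasurableSet.const _).inter (meas_adj b _ y w))

lemma mem_Br_of_Cn {b r : ℕ} {L : Set ℤ} {x y : Vx} {ω : Cf} (hx : x.1 ∈ Br b r)
    (h : Cn b ω {u : Vx | u.1 ∈ Br b r ∧ u.2 ∈ L} x y) : y.1 ∈ Br b r := by
  by_cases hx' : x ∈ {u : Vx | u.1 ∈ Br b r ∧ u.2 ∈ L}
  · exact (mem_of_Cn hx' h).1
  · rw [cl_of_not_mem hx' h]; exact hx

lemma dep_ExW {b r : ℕ} {L : Set ℤ} {x : Vx} (hx : x.1 ∈ Br b r) (w : Vx) :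
    Dep (Er b r) (ExW b r L x w) := by
  rintro ω ω' h ⟨y, h1, h2, h0, h3, h4, c, h5⟩
  have hy := mem_Br_of_Cn hx h1
  refine ⟨y, ?_, h2, h0, h3, h4, c, ?_⟩
  · exact dep_Cn _ _ _ ω ω' (fun e he => h e (Or.inl he.1.1)) h1
  · rcases h5 with ⟨h5, h6⟩ | ⟨h5, h6⟩
    · left
      exact ⟨h5, by rw [← h _ (Or.inl hy)]; exact h6⟩
    · right
      refine ⟨h5, ?_⟩
      rw [← h _ (Or.inr (by rw [h5]; exact hy))]
      exact h6

/-- the continuation event after the exit at `w` -/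
lemma exists_H (hHAR : S_HAR) (hR : S_REIDX) (hM : S_MEAS) (hNice : S_NICE) (hNG : S_NGOOD)
    {b : ℕ} (hb : 2 ≤ b) (K R : ℕ) (p : ℝ≥0) (hp : p ≤ 1) (a c m : ℝ) (ha0 : 0 < a)
    (ha : ∀ z, a ≤ (PP Ed p hp).real (Good p hp a (RelI b K R c m z)))
    (L : Set ℤ) (hL : L = Set.univ ∨ L = Set.Ici 0) (r : ℕ) (x : Vx) (hx : x.1 ∈ Br b r) (w : Vx) :
    ∃ H : Set Cf, MeasurableSet H ∧ Dep (Er b r)ᶜ H ∧
      (p : ℝ) ^ (3 * R + 3) * a ≤ (PP Ed p hp).real H ∧
      ∀ ω ∈ ExW b r L x w ∩ H, ToGood b K R p hp a c m L x ω := by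
  have hp0 : (0 : ℝ) ≤ p := p.2
  have hp1 : (p : ℝ) ≤ 1 := by exact_mod_cast hp
  rcases Set.eq_empty_or_nonempty (ExW b r L x w) with hE | ⟨ω₀, y, h1, hw, h0, hyL, hwL, c₀, h5⟩
  · refine ⟨Set.univ, MeasurableSet.univ, fun _ _ _ _ => trivial, ?_, ?_⟩
    · have h2 : a ≤ 1 := (ha x.1).trans measureReal_le_one
      rw [probReal_univ]
      calc (p : ℝ) ^ (3 * R + 3) * a ≤ 1 * 1 :=
            mul_le_mul (pow_le_one₀ hp0 hp1) h2 ha0.le zero_le_one
        _ = 1 := one_mul 1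
    · rw [hE]; simp
  -- upward closed
  have hup : ∀ s t : ℤ, s ∈ L → s ≤ t → t ∈ L := by
    intro s t hs hst
    rcases hL with rfl | rfl
    · trivial
    · exact le_trans hs hst
  have hy := mem_Br_of_Cn hx h1
  have hadj : (par b y.1 = w.1 ∨ par b w.1 = y.1) := by
    rcases h5 with ⟨h5, _⟩ | ⟨h5, _⟩
    · cases c₀
      · left; rw [← h5]; rfl
      · exfalso; apply hw; rw [← h5]; exact hy
    · cases c₀
      · right; rw [← h5]; rfl
      · exfalso; apply hw
        have : w.1 = y.1 := by rw [← h5]; rfl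
        rw [this]; exact hy
  set W' : Set Vx := {u | u.1 ∉ Br b r ∧ u.2 ∈ L} with hW'
  -- the vertex `z`
  obtain ⟨z, hzfree, hzcn⟩ : ∃ z : Vt, Free b r z ∧
      (p : ℝ) ≤ (PP Ed p hp).real {ω | Cn b ω W' w (z, w.2)} := by
    rcases boundary hy hw hadj with hw1 | ⟨hw1, _⟩
    · refine ⟨((r : ℤ), 1), free_top, ?_⟩
      calc (p : ℝ) = (PP Ed p hp).real {ω | ω (((((r : ℤ), 1) : Vt), w.2), false) = true} :=
            (prob_open Ed p hp _).symm
        _ ≤ _ := by
          apply real_mono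
          intro ω hω
          have h2 : hd b (((((r : ℤ), 1) : Vt), w.2), false) = w := by
            have : par b ((r : ℤ), 1) = w.1 := by
              rw [hw1]
              simp only [par, Prod.mk.injEq, true_and]
              exact Nat.div_eq_of_lt (by omega)
            simp only [hd, Bool.false_eq_true, if_false, this]
          have h3 := Cn_edge (b := b) (ω := ω) (W := W') (x := (((r : ℤ), 1), w.2))
            (c := false) ⟨free_top _ 0 rfl, hwL⟩ (by rw [h2]; exact ⟨hw, hwL⟩) hω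
          rw [h2] at h3
          exact Cn_symm h3
    · refine ⟨w.1, free_low hw1, ?_⟩
      have : {ω : Cf | Cn b ω W' w (w.1, w.2)} = Set.univ := by
        ext ω
        simp only [Set.mem_ofPred_eq, Set.mem_univ, iff_true]
        exact Cn_refl _ _ _ _
      rw [this, probReal_univ]
      exact hp1
  have hzBr : z ∉ Br b r := hzfree z 0 rfl
  -- the height
  obtain ⟨j, hj1, hj2⟩ : ∃ j : ℤ, w.2 + R ≤ j * (2 * R + 1) ∧ j * (2 * R + 1) ≤ w.2 + 3 * R := by
    refine ⟨(w.2 + 3 * R) / (2 * R + 1), ?_, ?_⟩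
    · have h2 := Int.emod_add_mul_ediv (w.2 + 3 * R) (2 * R + 1)
      have h3 := Int.emod_lt_of_pos (w.2 + 3 * R) (by omega : (0 : ℤ) < 2 * R + 1)
      nlinarith
    · have h2 := Int.emod_add_mul_ediv (w.2 + 3 * R) (2 * R + 1)
      have h3 := Int.emod_nonneg (w.2 + 3 * R) (by omega : (2 * R + 1 : ℤ) ≠ 0)
      nlinarith
  obtain ⟨n, hn⟩ : ∃ n : ℕ, j * (2 * R + 1) = w.2 + n :=
    ⟨(j * (2 * R + 1) - w.2).toNat, by omega⟩
  have hn3 : n ≤ 3 * R := by omega
  have hvs := vseg hHAR hM (b := b) (p := p) (hp := hp) (W := W') z w.2 n (fun t ht _ =>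
    ⟨hzBr, hup _ _ hwL ht⟩)
  rw [← hn] at hvs
  have hpath := combine hHAR hM (pow_nonneg hp0 n) hzcn hvs subset_rfl subset_rfl
  obtain ⟨g1, g2, g3, g4⟩ := good_shift hR hNice hNG hb z (j * (2 * R + 1)) (ha z)
  refine ⟨{ω | Cn b ω W' w (z, j * (2 * R + 1))} ∩
    {ω | sh (j * (2 * R + 1)) ω ∈ Good p hp a (RelI b K R c m z)}, (hM b _ _ _).1.inter g1, ?_, ?_, ?_⟩
  · apply dep_inter
    · refine dep_mono ?_ (dep_Cn W' _ _)
      intro e he he'
      rcases he' with he' | he'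
      · exact he.1.1 he'
      · exact he.2.1 he'
    · refine dep_mono ?_ g3
      rintro e ⟨i, hi, hi'⟩ he'
      rcases he' with he' | he'
      · exact hzfree _ _ hi he'
      · by_cases he2 : e.2 = true
        · have : (hd b e).1 = e.1.1 := by simp [hd, he2]
          rw [this] at he'
          exact hzfree _ _ hi he'
        · have he3 : e.2 = false := by simpa using he2
          have : (hd b e).1 = par b e.1.1 := by simp [hd, he3]
          rw [this] at he'
          have h7 := hi' he3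
          obtain ⟨i', rfl⟩ : ∃ i', i = i' + 1 := ⟨i - 1, by omega⟩
          rw [Function.iterate_succ_apply] at hi
          exact hzfree _ _ hi he'
  · have h8 := hHAR Ed p hp _ _ (hM b W' w (z, j * (2 * R + 1))).1 g1 (inc_Cn b W' _ _) g2
    refine le_trans ?_ h8
    refine mul_le_mul ?_ g4 ha0.le measureReal_nonneg
    refine le_trans ?_ hpath
    calc (p : ℝ) ^ (3 * R + 3) ≤ (p : ℝ) ^ (1 + n) := pow_le_pow_of_le_one hp0 hp1 (by omega)
      _ = p * (p : ℝ) ^ n := by rw [pow_add, pow_one]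
  · rintro ω ⟨⟨y', k1, _, k2⟩, k3, k4⟩
    refine ⟨z, j, ?_, k4, ?_⟩
    · exact hup w.2 _ hwL (by omega)
    · have k5 : Cn b ω (TW L) x y' := Cn_mono_set (fun u hu => hu.2) k1
      have k6 : Cn b ω (TW L) y' w := SimpleGraph.Adj.reachable k2
      have k7 : Cn b ω (TW L) w (z, j * (2 * R + 1)) := Cn_mono_set (fun u hu => hu.2) k3
      exact Cn_trans (Cn_trans k5 k6) k7

theorem ex1 (hIND : S_IND) (hHAR : S_HAR) (hR : S_REIDX) (hM : S_MEAS) (hNice : S_NICE)
    (hNG : S_NGOOD) : S_EX1 := by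
  intro b hb K R p hp a c m hp0 ha0 ha L hL r x hx A hA hdA
  choose H hH1 hH2 hH3 hH4 using
    exists_H hHAR hR hM hNice hNG hb K R p hp a c m ha0 ha L hL r x hx
  obtain ⟨f, hf⟩ := exists_surjective_nat Vx
  set E : ℕ → Set Cf := fun n => A ∩ ExW b r L x (f n) with hE
  have hEm : ∀ n, MeasurableSet (E n) := fun n => hA.inter (meas_ExW hM b r L x (f n))
  have hEd : ∀ n, Dep (Er b r) (E n) := fun n => dep_inter hdA (dep_ExW hx (f n))
  set D : ℕ → Set Cf := disjointed E with hD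
  have hDm : ∀ n, MeasurableSet (D n) := fun n => MeasurableSet.disjointed hEm n
  have hDd : ∀ n, Dep (Er b r) (D n) := by
    intro n
    exact disjointedRec (p := fun s => Dep (Er b r) s) (fun t i ht => dep_diff ht (hEd i)) (hEd n)
  have hDE : ∀ n, D n ⊆ E n := fun n => disjointed_subset E n
  have hU : (⋃ n, D n) = A ∩ {ω | Exits b r L x ω} := by
    rw [hD, iUnion_disjointed]
    ext ω
    simp only [hE, Set.mem_iUnion, Set.mem_inter_iff, Set.mem_ofPred_eq]
    constructor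
    · rintro ⟨n, h1, y, h2, h3, h4⟩
      exact ⟨h1, y, f n, h2, h3, h4⟩
    · rintro ⟨h1, y, w, h2, h3, h4⟩
      obtain ⟨n, rfl⟩ := hf w
      exact ⟨n, h1, y, h2, h3, h4⟩
  have hdisj : Pairwise (Function.onFun Disjoint D) := disjoint_disjointed E
  set C : ℝ := (p : ℝ) ^ (3 * R + 3) * a with hC
  have hC0 : 0 ≤ C := mul_nonneg (pow_nonneg p.2 _) ha0.le
  have hstep : ∀ n, ENNReal.ofReal C * PP Ed p hp (D n) ≤ PP Ed p hp (D n ∩ H (f n)) := by
    intro n
    have h1 := hIND Ed p hp (Er b r) (Er b r)ᶜ (D n) (H (f n)) disjoint_compl_right (hDd n)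
      (hH2 (f n)) (hDm n) (hH1 (f n))
    rw [← ofReal_measureReal (measure_ne_top _ _), ← ofReal_measureReal (μ := PP Ed p hp)
      (s := D n ∩ H (f n)) (measure_ne_top _ _), ← ENNReal.ofReal_mul hC0]
    apply ENNReal.ofReal_le_ofReal
    rw [h1, mul_comm]
    exact mul_le_mul_of_nonneg_left (hH3 (f n)) measureReal_nonneg
  have hsum : ENNReal.ofReal C * PP Ed p hp (A ∩ {ω | Exits b r L x ω}) ≤
      PP Ed p hp (A ∩ {ω | ToGood b K R p hp a c m L x ω}) := by
    rw [← hU, measure_iUnion hdisj hDm, ← ENNReal.tsum_mul_left]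
    calc ∑' n, ENNReal.ofReal C * PP Ed p hp (D n) ≤ ∑' n, PP Ed p hp (D n ∩ H (f n)) :=
          ENNReal.tsum_le_tsum hstep
      _ = PP Ed p hp (⋃ n, D n ∩ H (f n)) := by
          rw [measure_iUnion]
          · intro i j hij
            exact (hdisj hij).mono Set.inter_subset_left Set.inter_subset_left
          · exact fun n => (hDm n).inter (hH1 (f n))
      _ ≤ _ := by
          apply measure_mono
          intro ω hω
          simp only [Set.mem_iUnion] at hω
          obtain ⟨n, h1, h2⟩ := hω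
          have h3 := hDE n h1
          exact ⟨h3.1, hH4 (f n) ω ⟨h3.2, h2⟩⟩
  have h1 := ENNReal.toReal_mono (measure_ne_top _ _) hsum
  rw [ENNReal.toReal_mul, ENNReal.toReal_ofReal hC0] at h1
  exact h1

end Pool.Agent.Helper80K9.CP
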