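import Pool.Agent.Helper98K9.CP.Basic
import Pool.Agent.Helper98K9.CP.St2

set_option autoImplicit false

/-! # [EX2] an infinite cluster exits -/

namespace Pool.Agent.Helper80K9.CP

open MeasureTheory ProbabilityTheory
open scoped ENNReal NNReal
open Pool.Agent.Helper98K9.CP

/-- dichotomy for the vertices of the cluster -/
lemma exit_or {b r : ℕ} {L : Set ℤ} {x : Vx} {ω : Cf} (hx : x.1 ∈ Br b r) {z : Vx}
    (h : Cn b ω (TW L) x z) :
    (z.1 ∈ Br b r ∧ Cn b ω {u : Vx | u.1 ∈ Br b r ∧ u.2 ∈ L} x z) ∨ Exits b r L x ω := by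
  unfold Cn at h
  rw [SimpleGraph.reachable_iff_reflTransGen] at h
  induction h with
  | refl => exact Or.inl ⟨hx, Cn.refl _ _ _⟩
  | @tail y w _ hadj ih =>
    rcases ih with ⟨hy, hc⟩ | ih
    · by_cases hw : w.1 ∈ Br b r
      · left
        refine ⟨hw, hc.trans ?_⟩
        obtain ⟨h0, h1, h2, c, h3⟩ := hadj
        exact SimpleGraph.Adj.reachable ⟨h0, ⟨hy, h1⟩, ⟨hw, h2⟩, c, h3⟩
      · exact Or.inr ⟨y, w, hc, hw, hadj⟩
    · exact Or.inr ih

theorem ex2 : S_EX2 := by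
  intro b r L x ω hx hinf hfin
  by_contra hex
  apply hfin
  refine Set.Infinite.mono ?_ hinf
  intro z hz
  rcases exit_or hx hz with ⟨_, h⟩ | h
  · exact Cn.mono (fun u hu => hu.1) (fun _ _ h => h) h
  · exact absurd h hex

end Pool.Agent.Helper80K9.CP
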