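import Pool.Agent.Helper98K9.CP.Perc

set_option autoImplicit false

/-! # [PISO] percolation on isomorphic graphs -/

namespace Pool.Agent.Helper80K9.CP

open MeasureTheory ProbabilityTheory
open scoped ENNReal NNReal
open Pool.Agent.Helper98K9.CP

section

variable {V V' : Type} {G : SimpleGraph V} {G' : SimpleGraph V'} (φ : G ≃g G')

/-- transport of configurations -/
noncomputable def cfE : (G.edgeSet → Bool) ≃ᵐ (G'.edgeSet → Bool) :=
  MeasurableEquiv.piCongrLeft (fun _ => Bool) φ.mapEdgeSet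

lemma cfE_apply (ω : G.edgeSet → Bool) (e : G.edgeSet) : cfE φ ω (φ.mapEdgeSet e) = ω e := by
  unfold cfE
  exact MeasurableEquiv.piCongrLeft_apply_apply φ.mapEdgeSet (β := fun _ => Bool) ω e

lemma cfE_map (p : ℝ≥0) : (perc G p).map (cfE φ) = perc G' p := by
  unfold perc cfE
  exact Measure.infinitePi_map_piCongrLeft
    (fun _ : G'.edgeSet => (PMF.bernoulli (min p 1) (min_le_right p 1)).toMeasure) φ.mapEdgeSet

lemma perc_eq (p : ℝ≥0) (A : Set (G'.edgeSet → Bool)) :
    perc G' p A = perc G p (cfE φ ⁻¹' A) := by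
  rw [← cfE_map φ p, MeasurableEquiv.map_apply]

lemma opn_adj (ω : G.edgeSet → Bool) (x y : V) :
    (opn G' (cfE φ ω)).Adj (φ x) (φ y) ↔ (opn G ω).Adj x y := by
  constructor
  · rintro ⟨h, ho⟩
    have h' : G.Adj x y := φ.map_adj_iff.mp h
    refine ⟨h', ?_⟩
    rw [← cfE_apply φ ω ⟨s(x, y), h'⟩]
    exact ho
  · rintro ⟨h, ho⟩
    have h' : G'.Adj (φ x) (φ y) := φ.map_adj_iff.mpr h
    refine ⟨h', ?_⟩
    rw [← cfE_apply φ ω ⟨s(x, y), h⟩] at ho
    exact ho

/-- the isomorphism of the open graphs -/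
def opnIso (ω : G.edgeSet → Bool) : opn G ω ≃g opn G' (cfE φ ω) where
  toEquiv := φ.toEquiv
  map_rel_iff' := by
    intro x y
    exact opn_adj φ ω x y

lemma infCl_iff (ω : G.edgeSet → Bool) (x : V) : InfCl G' (cfE φ ω) (φ x) ↔ InfCl G ω x := by
  unfold InfCl
  have h : {y | (opn G' (cfE φ ω)).Reachable (φ x) y} = φ '' {y | (opn G ω).Reachable x y} := by
    ext y
    simp only [Set.mem_ofPred_eq, Set.mem_image]
    constructor
    · intro hy
      refine ⟨φ.symm y, ?_, φ.apply_symm_apply y⟩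
      have h1 := (opnIso φ ω).reachable_iff (u := x) (v := φ.symm y)
      rw [← h1]
      have e1 : (opnIso φ ω) x = φ x := rfl
      have e2 : (opnIso φ ω) (φ.symm y) = y := φ.apply_symm_apply y
      rw [e1, e2]
      exact hy
    · rintro ⟨z, hz, rfl⟩
      exact ((opnIso φ ω).reachable_iff (u := x) (v := z)).mpr hz
  rw [h, Set.infinite_image_iff φ.injective.injOn]

lemma supp_infinite_iff (ω : G.edgeSet → Bool) (C : (opn G ω).ConnectedComponent) :
    ((opnIso φ ω).connectedComponentEquiv C).supp.Infinite ↔ C.supp.Infinite := by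
  rw [← Set.infinite_coe_iff, ← Set.infinite_coe_iff]
  exact (Equiv.infinite_iff ((SimpleGraph.ConnectedComponent.isoEquivSupp (opnIso φ ω) C))).symm

lemma uniq_iff (ω : G.edgeSet → Bool) :
    (∃! C : (opn G' (cfE φ ω)).ConnectedComponent, C.supp.Infinite) ↔
      ∃! C : (opn G ω).ConnectedComponent, C.supp.Infinite := by
  constructor
  · rintro ⟨C, hC, hu⟩
    obtain ⟨D, rfl⟩ := (opnIso φ ω).connectedComponentEquiv.surjective C
    refine ⟨D, (supp_infinite_iff φ ω D).mp hC, fun D' hD' => ?_⟩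
    exact (opnIso φ ω).connectedComponentEquiv.injective
      (hu _ ((supp_infinite_iff φ ω D').mpr hD'))
  · rintro ⟨D, hD, hu⟩
    refine ⟨(opnIso φ ω).connectedComponentEquiv D, (supp_infinite_iff φ ω D).mpr hD, ?_⟩
    intro C hC
    obtain ⟨D', rfl⟩ := (opnIso φ ω).connectedComponentEquiv.surjective C
    rw [hu D' ((supp_infinite_iff φ ω D').mp hC)]

end

theorem piso : S_PISO := by
  intro V V' _ _ G G' φ
  constructor
  · unfold pu
    congr 1
    ext p
    simp only [Set.mem_ofPred_eq]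
    refine and_congr_right fun _ => ?_
    rw [ae_iff, ae_iff, perc_eq φ p]
    have : (cfE φ ⁻¹' {ω | ¬ ∃! C : (opn G' ω).ConnectedComponent, C.supp.Infinite}) =
        {ω | ¬ ∃! C : (opn G ω).ConnectedComponent, C.supp.Infinite} := by
      ext ω
      simp only [Set.mem_preimage, Set.mem_ofPred_eq]
      rw [uniq_iff φ ω]
    rw [this]
  · intro x p
    unfold theta
    rw [perc_eq φ p]
    congr 1
    ext ω
    simp only [Set.mem_preimage, Set.mem_ofPred_eq]
    exact (infCl_iff φ ω x).symm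

end Pool.Agent.Helper80K9.CP
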