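import Pool.Agent.Helper98K9.CP.Basic
import Pool.Agent.Helper98K9.CP.St2

set_option autoImplicit false

/-! # [STRIP] no infinite cluster in a finite strip -/

namespace Pool.Agent.Helper80K9.CP

open MeasureTheory ProbabilityTheory
open scoped ENNReal NNReal
open Pool.Agent.Helper98K9.CP

/-- all vertical edges from height `t` over `B` are closed -/
def Cut (B : Set Vt) (t : ℤ) : Set Cf := {ω | ∀ v ∈ B, ω ((v, t), true) = false}

/-- edges of height `t` -/
def eh (t : ℤ) : Set Ed := {e | e.1.2 = t}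

lemma dep_cut (B : Set Vt) (t : ℤ) : Dep (eh t) (Cut B t) := by
  intro ω ω' h h' v hv
  rw [← h ((v, t), true) rfl]
  exact h' v hv

lemma cut_eq (B : Set Vt) (t : ℤ) :
    Cut B t = Set.pi ((fun v : Vt => (((v, t), true) : Ed)) '' B) (fun _ => ({false} : Set Bool)) := by
  ext ω
  rw [Set.mem_pi]
  constructor
  · rintro h _ ⟨v, hv, rfl⟩
    exact h v hv
  · intro h v hv
    exact h _ ⟨v, hv, rfl⟩

lemma prob_cut {B : Set Vt} (hB : B.Finite) (t : ℤ) (p : ℝ≥0) (hp : p ≤ 1) :
    (PP Ed p hp).real (Cut B t) = (1 - (p : ℝ)) ^ B.ncard := by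
  classical
  have hfin : ((fun v : Vt => (((v, t), true) : Ed)) '' B).Finite := hB.image _
  have hinj : Function.Injective (fun v : Vt => (((v, t), true) : Ed)) := by
    intro v v' h
    simpa using h
  have h1 : ((hfin.toFinset : Finset Ed) : Set Ed) = (fun v : Vt => (((v, t), true) : Ed)) '' B := by
    simp
  have h0 : (PMF.bernoulli p hp).toMeasure ({false} : Set Bool) = ((1 - p : ℝ≥0) : ℝ≥0∞) := by
    rw [PMF.toMeasure_apply_singleton _ _ (MeasurableSet.singleton _)]
    simp [PMF.bernoulli_apply]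
  rw [measureReal_def, cut_eq, ← h1]
  unfold PP
  rw [Measure.infinitePi_pi _ (fun _ _ => MeasurableSet.singleton _)]
  rw [Finset.prod_congr rfl (fun _ _ => h0), Finset.prod_const]
  have h2 : hfin.toFinset.card = B.ncard := by
    rw [← Set.ncard_coe_finset, h1, Set.ncard_image_of_injective _ hinj]
  rw [h2, ENNReal.toReal_pow, ENNReal.coe_toReal, NNReal.coe_sub hp, NNReal.coe_one]

lemma meas_cut {B : Set Vt} (hB : B.Finite) (t : ℤ) : MeasurableSet (Cut B t) := by
  rw [cut_eq]
  exact MeasurableSet.pi (hB.image _).countable (fun _ _ => MeasurableSet.singleton _)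

lemma nocut_n (hIND : S_IND) {B : Set Vt} (hB : B.Finite) (p : ℝ≥0) (hp : p ≤ 1) (f : ℕ → ℤ)
    (hf : Function.Injective f) (n : ℕ) :
    MeasurableSet {ω : Cf | ∀ i < n, ω ∉ Cut B (f i)} ∧
    (PP Ed p hp).real {ω | ∀ i < n, ω ∉ Cut B (f i)} = (1 - (1 - (p : ℝ)) ^ B.ncard) ^ n := by
  induction n with
  | zero =>
    have : {ω : Cf | ∀ i < 0, ω ∉ Cut B (f i)} = Set.univ := by ext ω; simp
    rw [this]
    simp
  | succ n ih =>
    have h1 : {ω : Cf | ∀ i < n + 1, ω ∉ Cut B (f i)} =
        {ω | ∀ i < n, ω ∉ Cut B (f i)} ∩ (Cut B (f n))ᶜ := by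
      ext ω
      simp only [Set.mem_ofPred_eq, Set.mem_inter_iff, Set.mem_compl_iff]
      constructor
      · intro h
        exact ⟨fun i hi => h i (by omega), h n (by omega)⟩
      · rintro ⟨h, h'⟩ i hi
        rcases Nat.lt_succ_iff_lt_or_eq.mp hi with h2 | h2
        · exact h i h2
        · rw [h2]; exact h'
    rw [h1]
    refine ⟨ih.1.inter (meas_cut hB _).compl, ?_⟩
    have h2 : (PP Ed p hp).real (Cut B (f n))ᶜ = 1 - (1 - (p : ℝ)) ^ B.ncard := by
      rw [probReal_compl_eq_one_sub (meas_cut hB _), prob_cut hB]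
    rw [hIND Ed p hp (⋃ i < n, eh (f i)) (eh (f n)) _ _ ?_ ?_ ?_ ih.1 (meas_cut hB _).compl, ih.2, h2,
      pow_succ]
    · rw [Set.disjoint_left]
      intro e he he'
      simp only [Set.mem_iUnion] at he
      obtain ⟨i, hi, he⟩ := he
      have h3 : f i = f n := he.symm.trans he'
      exact absurd (hf h3) (by omega)
    · intro ω ω' h h' i hi hc
      refine h' i hi (dep_cut B (f i) ω' ω ?_ hc)
      intro e he
      exact (h e (by simp only [Set.mem_iUnion]; exact ⟨i, hi, he⟩)).symm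
    · intro ω ω' h h' hc
      exact h' (dep_cut B (f n) ω' ω (fun e he => (h e he).symm) hc)

lemma nocut (hIND : S_IND) {B : Set Vt} (hB : B.Finite) (p : ℝ≥0) (hp : p ≤ 1) (hp1 : p < 1)
    (f : ℕ → ℤ) (hf : Function.Injective f) :
    (PP Ed p hp).real {ω | ∀ i, ω ∉ Cut B (f i)} = 0 := by
  have hpos : 0 < (1 - (p : ℝ)) ^ B.ncard := by
    have : (p : ℝ) < 1 := by exact_mod_cast hp1
    have : 0 < 1 - (p : ℝ) := by linarith
    positivity
  have hle1 : (1 - (p : ℝ)) ^ B.ncard ≤ 1 := by
    apply pow_le_one₀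
    · have : (p : ℝ) ≤ 1 := by exact_mod_cast hp
      linarith
    · have := p.2
      have h : (0 : ℝ) ≤ p := this
      linarith
  have hlim : Filter.Tendsto (fun n : ℕ => (1 - (1 - (p : ℝ)) ^ B.ncard) ^ n) Filter.atTop
      (nhds 0) := tendsto_pow_atTop_nhds_zero_of_lt_one (by linarith) (by linarith)
  refine le_antisymm ?_ measureReal_nonneg
  refine ge_of_tendsto' hlim fun n => ?_
  rw [← (nocut_n hIND hB p hp f hf n).2]
  apply measureReal_mono _ (measure_ne_top _ _)
  intro ω h i _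
  exact h i

/-- a cut above -/
lemma le_of_cut {b : ℕ} {B : Set Vt} {ω : Cf} {x y : Vx} {t : ℤ} (hx : x.2 ≤ t)
    (hc : ω ∈ Cut B t) (h : Cn b ω {y : Vx | y.1 ∈ B} x y) : y.2 ≤ t := by
  unfold Cn at h
  rw [SimpleGraph.reachable_iff_reflTransGen] at h
  induction h with
  | refl => exact hx
  | @tail u v _ hadj ih =>
    obtain ⟨h0, h1, h2, c, h3 | h3⟩ := hadj
    · obtain ⟨h3, h4⟩ := h3
      cases c
      · rw [← h3]
        simpa [hd] using ih
      · rw [← h3]
        simp only [hd, if_true]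
        have hne : u.2 ≠ t := by
          intro he
          have := hc u.1 h1
          rw [← he] at this
          rw [this] at h4
          exact absurd h4 (by simp)
        omega
    · obtain ⟨h3, h4⟩ := h3
      cases c
      · rw [← h3] at ih
        simpa [hd] using ih
      · rw [← h3] at ih
        simp only [hd, if_true] at ih
        omega

/-- a cut below -/
lemma lt_of_cut {b : ℕ} {B : Set Vt} {ω : Cf} {x y : Vx} {t : ℤ} (hx : t < x.2)
    (hc : ω ∈ Cut B t) (h : Cn b ω {y : Vx | y.1 ∈ B} x y) : t < y.2 := by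
  unfold Cn at h
  rw [SimpleGraph.reachable_iff_reflTransGen] at h
  induction h with
  | refl => exact hx
  | @tail u v _ hadj ih =>
    obtain ⟨h0, h1, h2, c, h3 | h3⟩ := hadj
    · obtain ⟨h3, h4⟩ := h3
      cases c
      · rw [← h3]
        simpa [hd] using ih
      · rw [← h3]
        simp only [hd, if_true]
        omega
    · obtain ⟨h3, h4⟩ := h3
      cases c
      · rw [← h3] at ih
        simpa [hd] using ih
      · rw [← h3] at ih
        simp only [hd, if_true] at ih
        have hne : v.2 ≠ t := by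
          intro he
          have := hc v.1 h2
          rw [← he] at this
          rw [this] at h4
          exact absurd h4 (by simp)
        omega

theorem strip (hIND : S_IND) : S_STRIP := by
  intro b p hp hp1 B hB x
  have h1 := nocut hIND hB p hp hp1 (fun i => x.2 + i) (fun i j h => by simpa using h)
  have h2 := nocut hIND hB p hp hp1 (fun i => x.2 - 1 - i) (fun i j h => by simpa using h)
  refine le_antisymm ?_ measureReal_nonneg
  have hsub : {ω | (cl b ω {y : Vx | y.1 ∈ B} x).Infinite} ⊆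
      {ω | ∀ i : ℕ, ω ∉ Cut B (x.2 + i)} ∪ {ω | ∀ i : ℕ, ω ∉ Cut B (x.2 - 1 - i)} := by
    intro ω hω
    by_contra hcon
    simp only [Set.mem_union, Set.mem_ofPred_eq, not_or, not_forall, not_not] at hcon
    obtain ⟨⟨i, hi⟩, ⟨j, hj⟩⟩ := hcon
    have hxB : x ∈ {y : Vx | y.1 ∈ B} := mem_of_infinite hω
    apply hω
    refine Set.Finite.subset (hB.prod (Set.finite_Icc (x.2 - 1 - j) (x.2 + i))) ?_
    intro y hy
    refine ⟨mem_of_Cn hxB hy, ?_, ?_⟩
    · exact (lt_of_cut (by omega) hj hy).le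
    · exact le_of_cut (by omega) hi hy
  calc (PP Ed p hp).real {ω | (cl b ω {y : Vx | y.1 ∈ B} x).Infinite}
      ≤ (PP Ed p hp).real ({ω | ∀ i : ℕ, ω ∉ Cut B (x.2 + i)} ∪
          {ω | ∀ i : ℕ, ω ∉ Cut B (x.2 - 1 - i)}) := measureReal_mono hsub (measure_ne_top _ _)
    _ ≤ _ := measureReal_union_le _ _
    _ = 0 := by rw [h1, h2, add_zero]

end Pool.Agent.Helper80K9.CP
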